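import Pool.Agent.Helper35.MS.StC

/-! Project MS, module CE1: the reaction inequality, first case. -/

set_option autoImplicit false

namespace Helper10.MS

open Helper35.MS Helper35.PI Helper35.PI2 Helper32.CL

theorem ce1_f {x : ℝ} (hx : 0 ≤ x) : fm0 x = (400 + 3172 * x + 3565 * x ^ 2 + 1800 * x ^ 3) /
    (75 * (1 + 8 * x) * (8 + 10 * x)) := by
  have h1 : (1 + 8 * x) ≠ 0 := by positivity
  have h2 : (8 + 10 * x) ≠ 0 := by positivity
  unfold fm0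
  field_simp
  ring

theorem ce1_c0 {x : ℝ} (hx : 0 ≤ x) :
    fm1 x * (x ^ 2 + x) - 3 / 2 * fm0 x ^ 2 + fm0 x =
    (1934424 * x ^ 2 + 7284960 * x ^ 3 + (38322225 / 2) * x ^ 4 + 22329000 * x ^ 5 +
      5940000 * x ^ 6) / (5625 * (1 + 8 * x) ^ 2 * (8 + 10 * x) ^ 2) := by
  have h1 : (1 + 8 * x) ≠ 0 := by positivity
  have h2 : (8 + 10 * x) ≠ 0 := by positivity
  rw [ce1_f hx]
  unfold fm1
  field_simp
  ring

theorem ce1_c2 {x : ℝ} (hx : 0 ≤ x) : 1 - fm1 x + gm0 x ^ 2 / 2 =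
    (24640 + 1036064 * x + 15601908 * x ^ 2 + 105830720 * x ^ 3 + 363552000 * x ^ 4 +
      453017600 * x ^ 5 + 229376000 * x ^ 6) /
      (200 * (1 + 8 * x) ^ 2 * (8 + 10 * x) ^ 2 * (1 + 16 * x) ^ 2) := by
  have h1 : (1 + 8 * x) ≠ 0 := by positivity
  have h2 : (8 + 10 * x) ≠ 0 := by positivity
  have h3 : (1 + 16 * x) ≠ 0 := by positivity
  unfold fm1 gm0
  field_simp
  ring

theorem ce1_S {x : ℝ} (hx : 0 ≤ x) :
    (fm1 x * (x ^ 2 + x) - 3 / 2 * fm0 x ^ 2 + fm0 x) - (1 - fm1 x + gm0 x ^ 2 / 2) * (x * fm0 x / 2) =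
    ((-9856000) * x + (-410048256) * x ^ 2 + (-5899588608) * x ^ 3 + (-35535481648) * x ^ 4 +
      (-107386451828) * x ^ 5 + (-193965347680) * x ^ 6 + 523855212800 * x ^ 7 +
      1799224064000 * x ^ 8 + 1487011840000 * x ^ 9 + 235929600000 * x ^ 10) /
      (30000 * (1 + 8 * x) ^ 3 * (8 + 10 * x) ^ 3 * (1 + 16 * x) ^ 2) := by
  have h1 : (1 + 8 * x) ≠ 0 := by positivity
  have h2 : (8 + 10 * x) ≠ 0 := by positivity
  have h3 : (1 + 16 * x) ≠ 0 := by positivity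
  rw [ce1_c0 hx, ce1_c2 hx, ce1_f hx]
  field_simp
  ring

theorem ce1_Q {x : ℝ} (hx : 0 ≤ x) :
    (gm1 x * (x ^ 2 + x) - gm0 x * x + gm0 x * (2 * fm0 x - 1)) + gm1 x * (x * fm0 x / 2) =
    (600 + 48582 * x + 367380 * x ^ 2 + 420600 * x ^ 3 + 216000 * x ^ 4) /
      (750 * (1 + 8 * x) * (8 + 10 * x) * (1 + 16 * x) ^ 2) := by
  have h1 : (1 + 8 * x) ≠ 0 := by positivity
  have h2 : (8 + 10 * x) ≠ 0 := by positivity
  have h3 : (1 + 16 * x) ≠ 0 := by positivity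
  rw [ce1_f hx]
  unfold gm1 gm0
  field_simp
  ring

theorem ce1_T {x : ℝ} (hx : 0 ≤ x) (hx2 : x ≤ 1 / 2) :
    ((fm1 x * (x ^ 2 + x) - 3 / 2 * fm0 x ^ 2 + fm0 x) -
      (1 - fm1 x + gm0 x ^ 2 / 2) * (x * fm0 x / 2)) ^ 2 ≤ (x * fm0 x / 2) *
    ((gm1 x * (x ^ 2 + x) - gm0 x * x + gm0 x * (2 * fm0 x - 1)) + gm1 x * (x * fm0 x / 2)) ^ 2 := by
  have h1 : 0 < (1 + 8 * x) := by positivity
  have h2 : 0 < (8 + 10 * x) := by positivity
  have h3 : 0 < (1 + 16 * x) := by positivity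
  rw [ce1_S hx, ce1_Q hx, ce1_f hx]
  have hT : 0 ≤ 786432000000 * x + 58273955840000 * x ^ 2 + 2985701159731200 * x ^ 3 +
      81692711638990848 * x ^ 4 + 1328779774341775360 * x ^ 5 + 14949013110385000448 * x ^ 6 +
      124084717450614851584 * x ^ 7 + 736570900544041575168 * x ^ 8 +
      3377611337105606216832 * x ^ 9 + 16638868094172202925936 * x ^ 10 +
      84227585860539793854720 * x ^ 11 + 314402542334947002598400 * x ^ 12 +
      796644578346370936832000 * x ^ 13 + 835885070340240547840000 * x ^ 14 +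
      (-1214951322671392358400000) * x ^ 15 + (-4687203376793452544000000) * x ^ 16 +
      (-5594153575807713280000000) * x ^ 17 + (-3059725992617574400000000) * x ^ 18 +
      (-701660217212928000000000) * x ^ 19 + (-55662776156160000000000) * x ^ 20 := by
    have hp : ∀ i : ℕ, 0 ≤ x ^ i := fun i => pow_nonneg hx i
    have hh : ∀ i : ℕ, x ^ (i + 1) ≤ x ^ i / 2 := fun i => by
      rw [pow_succ]
      nlinarith [hp i]
    linarith [hp 1, hp 2, hp 3, hp 4, hp 5, hp 6, hp 7, hp 8, hp 9, hp 10, hp 11, hp 12, hp 13,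
      hp 14, hh 10, hh 11, hh 12, hh 13, hh 14, hh 15, hh 16, hh 17, hh 18, hh 19]
  rw [← sub_nonneg]
  have key : x * ((400 + 3172 * x + 3565 * x ^ 2 + 1800 * x ^ 3) /
      (75 * (1 + 8 * x) * (8 + 10 * x))) / 2 *
      ((600 + 48582 * x + 367380 * x ^ 2 + 420600 * x ^ 3 + 216000 * x ^ 4) /
      (750 * (1 + 8 * x) * (8 + 10 * x) * (1 + 16 * x) ^ 2)) ^ 2 -
    (((-9856000) * x + (-410048256) * x ^ 2 + (-5899588608) * x ^ 3 + (-35535481648) * x ^ 4 +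
      (-107386451828) * x ^ 5 + (-193965347680) * x ^ 6 + 523855212800 * x ^ 7 +
      1799224064000 * x ^ 8 + 1487011840000 * x ^ 9 + 235929600000 * x ^ 10) /
      (30000 * (1 + 8 * x) ^ 3 * (8 + 10 * x) ^ 3 * (1 + 16 * x) ^ 2)) ^ 2 =
    (786432000000 * x + 58273955840000 * x ^ 2 + 2985701159731200 * x ^ 3 +
      81692711638990848 * x ^ 4 + 1328779774341775360 * x ^ 5 + 14949013110385000448 * x ^ 6 +
      124084717450614851584 * x ^ 7 + 736570900544041575168 * x ^ 8 +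
      3377611337105606216832 * x ^ 9 + 16638868094172202925936 * x ^ 10 +
      84227585860539793854720 * x ^ 11 + 314402542334947002598400 * x ^ 12 +
      796644578346370936832000 * x ^ 13 + 835885070340240547840000 * x ^ 14 +
      (-1214951322671392358400000) * x ^ 15 + (-4687203376793452544000000) * x ^ 16 +
      (-5594153575807713280000000) * x ^ 17 + (-3059725992617574400000000) * x ^ 18 +
      (-701660217212928000000000) * x ^ 19 + (-55662776156160000000000) * x ^ 20) /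
      (900000000 * (1 + 8 * x) ^ 6 * (8 + 10 * x) ^ 6 * (1 + 16 * x) ^ 4) := by
    have h1' := h1.ne'
    have h2' := h2.ne'
    have h3' := h3.ne'
    field_simp
    ring
  rw [key]
  positivity

theorem ce1_S0 {x : ℝ} (hx2 : 1 / 2 ≤ x) :
    0 ≤ (fm1 x * (x ^ 2 + x) - 3 / 2 * fm0 x ^ 2 + fm0 x) -
      (1 - fm1 x + gm0 x ^ 2 / 2) * (x * fm0 x / 2) := by
  have hx : 0 ≤ x := by linarith
  rw [ce1_S hx]
  have h1 : 0 < (1 + 8 * x) := by positivity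
  have h2 : 0 < (8 + 10 * x) := by positivity
  have h3 : 0 < (1 + 16 * x) := by positivity
  apply div_nonneg _ (by positivity)
  have hp : ∀ i : ℕ, 0 ≤ x ^ i := fun i => pow_nonneg hx i
  have hh : ∀ i : ℕ, x ^ i / 2 ≤ x ^ (i + 1) := fun i => by
    rw [pow_succ]
    nlinarith [hp i]
  linarith [hh 1, hh 2, hh 3, hh 4, hh 5, hh 6, hh 7, hh 8, hh 9, hp 10]

theorem ce1_Q0 {x : ℝ} (hx : 0 ≤ x) :
    0 ≤ (gm1 x * (x ^ 2 + x) - gm0 x * x + gm0 x * (2 * fm0 x - 1)) + gm1 x * (x * fm0 x / 2) := by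
  rw [ce1_Q hx]
  positivity

/-- the value at the end point -/
theorem ce1_end {x Y : ℝ} (hx : 0 ≤ x) (hY : 0 ≤ Y) (hY2 : Y ^ 2 = x * fm0 x / 2) :
    0 ≤ (fm1 x * (x ^ 2 + x) - 3 / 2 * fm0 x ^ 2 + fm0 x) -
      (1 - fm1 x + gm0 x ^ 2 / 2) * Y ^ 2 + Y *
      ((gm1 x * (x ^ 2 + x) - gm0 x * x + gm0 x * (2 * fm0 x - 1)) + gm1 x * Y ^ 2) := by
  rw [hY2]
  have hQ := ce1_Q0 hx
  rcases le_total x (1 / 2) with h | h
  · have hT := ce1_T hx h
    rw [← hY2, ← mul_pow] at hT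
    have h5 := abs_le_of_sq_le_sq' hT (by rw [hY2]; exact mul_nonneg hY hQ)
    rw [hY2] at h5
    linarith [h5.1]
  · have := ce1_S0 h
    have := mul_nonneg hY hQ
    linarith

theorem ce1_fle {x : ℝ} (hx : 0 ≤ x) : fm0 x ≤ 2 / 3 + 3 / 10 * x := by
  have h1 : 0 < (1 + 8 * x) := by positivity
  have h2 : 0 < (8 + 10 * x) := by positivity
  unfold fm0
  have h3 : 0 ≤ 22 * x / (25 * (1 + 8 * x)) := by positivity
  have h4 : 3 * x ^ 2 / (8 + 10 * x) ≤ 3 / 10 * x := by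
    rw [div_le_iff₀ h2]
    nlinarith
  linarith

theorem ce1_c2ge {x : ℝ} (hx : 0 ≤ x) : 1 / 2 ≤ 1 - fm1 x + gm0 x ^ 2 / 2 := by
  have h1 : 0 < (1 + 8 * x) := by positivity
  have h2 : 0 < (8 + 10 * x) := by positivity
  unfold fm1
  have h3 : -22 / (25 * (1 + 8 * x) ^ 2) ≤ 0 := by
    apply div_nonpos_of_nonpos_of_nonneg (by norm_num) (by positivity)
  have h4 : (48 * x + 30 * x ^ 2) / (8 + 10 * x) ^ 2 ≤ 3 / 10 := by
    rw [div_le_iff₀ (by positivity)]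
    nlinarith
  have h5 : 0 ≤ gm0 x ^ 2 := sq_nonneg _
  linarith

theorem ce1_GY {x Y : ℝ} (hx : 0 ≤ x) (hY2 : Y ^ 2 = x * fm0 x / 2) :
    gm1 x * Y ≤ 1 / 4 := by
  have h3 : 0 < (1 + 16 * x) := by positivity
  apply le_of_sq_le_sq _ (by norm_num)
  rw [mul_pow, hY2]
  have hf := ce1_fle hx
  have h4 : x * fm0 x / 2 ≤ x * (2 / 3 + 3 / 10 * x) / 2 := by
    have := mul_le_mul_of_nonneg_left hf hx
    linarith
  have h5 : gm1 x ^ 2 * (x * fm0 x / 2) ≤ gm1 x ^ 2 * (x * (2 / 3 + 3 / 10 * x) / 2) :=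
    mul_le_mul_of_nonneg_left h4 (sq_nonneg _)
  refine h5.trans ?_
  unfold gm1
  rw [div_pow, div_mul_eq_mul_div, div_le_iff₀ (by positivity)]
  have hp : ∀ i : ℕ, 0 ≤ x ^ i := fun i => pow_nonneg hx i
  nlinarith [hp 1, hp 2, hp 3, hp 4, sq_nonneg (x - 3 / 100), sq_nonneg (x ^ 2 - x / 40)]

theorem hCE1 : StCE1 := by
  intro x y hx hy g k hg hk h
  have hgm : 0 < gm0 x := by unfold gm0; positivity
  have hG : 0 < gm1 x := by unfold gm1; positivity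
  have hf0 : 0 < fm0 x := by rw [ce1_f hx]; positivity
  have hgf : g ≤ fm0 x := by
    rw [hg]
    have := mul_nonneg hgm.le hy
    linarith
  have hW : 0 ≤ x * fm0 x / 2 := by positivity
  set Y : ℝ := Real.sqrt (x * fm0 x / 2) with hYdef
  have hY : 0 ≤ Y := Real.sqrt_nonneg _
  have hY2 : Y ^ 2 = x * fm0 x / 2 := Real.sq_sqrt hW
  have hyW : y ^ 2 ≤ Y ^ 2 := by
    rw [hY2]
    have := mul_le_mul_of_nonneg_left hgf hx
    linarith
  have hyY : y ≤ Y := le_of_sq_le_sq hyW hY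
  have hc0 : 0 ≤ fm1 x * (x ^ 2 + x) - 3 / 2 * fm0 x ^ 2 + fm0 x := by
    rw [ce1_c0 hx]
    positivity
  have hend := ce1_end hx hY hY2
  have hGY := ce1_GY hx hY2
  have hc2 := ce1_c2ge hx
  -- the cubic
  set c0 : ℝ := fm1 x * (x ^ 2 + x) - 3 / 2 * fm0 x ^ 2 + fm0 x with hc0d
  set c2 : ℝ := 1 - fm1 x + gm0 x ^ 2 / 2 with hc2d
  set c1 : ℝ := gm1 x * (x ^ 2 + x) - gm0 x * x + gm0 x * (2 * fm0 x - 1) with hc1d
  have hB : k * (x ^ 2 + x + y ^ 2) - gm0 x * (x + g) * y - (y ^ 2 + 3 / 2 * g ^ 2 - g) =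
      c0 - c2 * y ^ 2 + y * (c1 + gm1 x * y ^ 2) := by
    rw [hk, hg, hc0d, hc2d, hc1d]
    ring
  have hB0 : 0 ≤ c0 - c2 * y ^ 2 + y * (c1 + gm1 x * y ^ 2) := by
    rcases hY.eq_or_lt with h0 | hpos
    · have hy0 : y = 0 := le_antisymm (by rw [h0]; exact hyY) hy
      rw [hy0]
      simpa using hc0
    · have hmain : 0 ≤ Y * (c0 - c2 * y ^ 2 + y * (c1 + gm1 x * y ^ 2)) := by
        have e1 : Y * (c0 - c2 * y ^ 2 + y * (c1 + gm1 x * y ^ 2)) =
            y * (c0 - c2 * Y ^ 2 + Y * (c1 + gm1 x * Y ^ 2)) +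
            (Y - y) * (c0 + y * Y * (c2 - gm1 x * (Y + y))) := by ring
        rw [e1]
        have h1 : gm1 x * y ≤ gm1 x * Y := mul_le_mul_of_nonneg_left hyY hG.le
        have h2 : 0 ≤ c2 - gm1 x * (Y + y) := by
          rw [mul_add]
          linarith
        have h3 : 0 ≤ Y - y := sub_nonneg.2 hyY
        have h4 : 0 ≤ y * Y * (c2 - gm1 x * (Y + y)) := mul_nonneg (mul_nonneg hy hY) h2
        exact add_nonneg (mul_nonneg hy hend) (mul_nonneg h3 (add_nonneg hc0 h4))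
      exact nonneg_of_mul_nonneg_right hmain hpos
  linarith

end Helper10.MS
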