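import Pool.Agent.Helper35.MS.StK
import Pool.Agent.Helper26.MS.M_SCL

/-!
Project MS, module FIT: finite time, complete statement in `ℝ^N` (combination).
-/

set_option autoImplicit false

namespace Helper10.MS

open Helper35.MS Helper35.PI Helper35.PI2 Helper32.CL
open scoped ContDiff Manifold Topology ENNReal BigOperators
open MeasureTheory Set Filter

private theorem small_rpow {α : ℝ} (hα : 0 < α) {δ : ℝ} (hδ : 0 < δ) :
    ∃ τ0 : ℝ, 0 < τ0 ∧ ∀ τ : ℝ, 0 < τ → τ ≤ τ0 → τ ^ α ≤ δ := by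
  refine ⟨δ ^ (1 / α), Real.rpow_pos_of_pos hδ _, fun τ h0 h1 => ?_⟩
  calc τ ^ α ≤ (δ ^ (1 / α)) ^ α := Real.rpow_le_rpow h0.le h1 hα.le
    _ = δ := by rw [← Real.rpow_mul hδ.le, one_div_mul_cancel hα.ne', Real.rpow_one]

private theorem sgm_scl {N : ℕ} (f : EE 2 → EE N) (c : ℝ) (hc : 0 < c) (x : EE 2) :
    sgm (fun y => c • f y) x = c ^ 2 * sgm f x := by
  unfold sgm
  rw [Helper26.MS.scl_gram f c hc.ne', Matrix.det_smul, Fintype.card_fin,
    Real.sqrt_mul (by positivity), Real.sqrt_sq (by positivity)]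

private theorem muM_scl {N : ℕ} {M : Type} [TopologicalSpace M] [MeasurableSpace M]
    [ChartedSpace (EE 2) M] (F G : M → ℝ → EE N) (c : ℕ → M) (χ : ℕ → M → ℝ) (t s c0 : ℝ)
    (hc : 0 < c0) (hFG : ∀ q, G q s = c0 • F q t) :
    muM 2 G c χ s univ = ENNReal.ofReal (c0 ^ 2) * muM 2 F c χ t univ := by
  unfold muM
  rw [Measure.sum_apply _ MeasurableSet.univ, Measure.sum_apply _ MeasurableSet.univ,
    ← ENNReal.tsum_mul_left]
  congr 1
  funext i
  have h1 : (fun y => ENNReal.ofReal (χ i ((chartAt (EE 2) (c i)).symm y)) *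
        ENNReal.ofReal (sgm (loc (n := 2) G (c i) s) y)) =
      ENNReal.ofReal (c0 ^ 2) • fun y => ENNReal.ofReal (χ i ((chartAt (EE 2) (c i)).symm y)) *
        ENNReal.ofReal (sgm (loc (n := 2) F (c i) t) y) := by
    funext y
    have h2 : loc (n := 2) G (c i) s = fun y => c0 • loc (n := 2) F (c i) t y := by
      funext y
      exact hFG _
    rw [h2, sgm_scl _ _ hc, ENNReal.ofReal_mul (by positivity)]
    change _ = ENNReal.ofReal (c0 ^ 2) * _
    ring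
  rw [h1, withDensity_smul' _ _ ENNReal.ofReal_ne_top, Measure.map_smul, Measure.smul_apply,
    smul_eq_mul]

private theorem s2_conn : ConnectedSpace S2 := by
  refine isConnected_iff_connectedSpace.1 (isConnected_sphere ?_ 0 zero_le_one)
  have h : ((1 : ℕ) : Cardinal) < Module.rank ℝ (EE 3) :=
    Module.lt_rank_of_lt_finrank (by rw [finrank_euclideanSpace_fin]; norm_num)
  exact_mod_cast h

/-- the frozen rescaled family -/
private theorem frozen (hSCL : StSCL) {N : ℕ} {T : ℝ} {G : S2 → ℝ → EE N} {c : ℕ → S2}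
    {χ : ℕ → S2 → ℝ} {δ : ℝ} (hD : Dat T G c χ δ) {t : ℝ} (ht : t ∈ Ioo 0 T) {c0 : ℝ}
    (hc : 0 < c0) (Φ : S2 → ℝ → EE N) (hΦ : Φ = fun q _ => c0 • G q t) :
    SetupJ 2 univ Φ c χ ∧ (∀ q, HH (n := 2) Φ q 0 = (1 / c0) • HH (n := 2) G q t ∧
      AA (n := 2) Φ q 0 = AA (n := 2) G q t / c0 ^ 2) ∧
    arI Φ c χ 0 = c0 ^ 2 * arI G c χ t := by
  have hF := hD.su.mcf.toIsImmJ
  have hS : ∀ s q, _ := fun s q => hSCL 2 N S2 G Φ t s c0 hc (fun q => by rw [hΦ]) q (hF.imm q t ht)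
  refine ⟨⟨⟨isOpen_univ, ?_, fun q s _ => (hS s q).1⟩, hD.su.pu⟩, fun q => ⟨(hS 0 q).2.1,
    (hS 0 q).2.2.1⟩, ?_⟩
  · have h1 : ContMDiff ((𝓡 2).prod 𝓘(ℝ, ℝ)) ((𝓡 2).prod 𝓘(ℝ, ℝ)) ∞
        (fun z : S2 × ℝ => ((z.1, t) : S2 × ℝ)) := contMDiff_fst.prodMk contMDiff_const
    have h2 : ContMDiffOn ((𝓡 2).prod 𝓘(ℝ, ℝ)) 𝓘(ℝ, EE N) ∞
        (fun z : S2 × ℝ => G z.1 t) (univ ×ˢ univ) :=
      hF.smooth.comp (t := univ ×ˢ Ioo 0 T) h1.contMDiffOn fun z _ => ⟨mem_univ _, ht⟩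
    rw [hΦ]
    exact (contDiff_const_smul c0).contMDiff.comp_contMDiffOn h2
  · unfold arI
    rw [measureReal_def, measureReal_def, muM_scl G Φ c χ t 0 c0 hc (fun q => by rw [hΦ]),
      ENNReal.toReal_mul, ENNReal.toReal_ofReal (by positivity)]

theorem hFIT (hTY3 : StTY3) (hFN2 : StFN2) (hLMF : StLMF) (hTRL : StTRL) (hMVW : StMVW)
    (hLMK : StLMK) (hRND : StRND) (hLMS : StLMS) (hINJ : StINJ) (hSCL : StSCL) : StFIT := by
  intro N F T c χ δ hD hU
  have : ConnectedSpace S2 := s2_conn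
  have : Nonempty S2 := inferInstance
  obtain ⟨C1, α, ts1, hC1, hα, hts1, h1⟩ := hTY3 N S2 T F c χ δ hD hU
  obtain ⟨-, hA⟩ := hFN2 N S2 T F c χ δ hD hU
  obtain ⟨x, C2, hC2, h2⟩ := hLMF N S2 T F c χ δ hD C1 α ts1 hC1 hα hts1
    (fun t ht => ⟨(h1 t ht).2.1, (h1 t ht).2.2.1, fun q => ((h1 t ht).2.2.2 q).2⟩)
  obtain ⟨G0, hG0⟩ : ∃ G0 : S2 → ℝ → EE N, G0 = fun q t => F q t - x := ⟨_, rfl⟩
  obtain ⟨tH, tA, -, tth, tY, tmu, tD⟩ := hTRL N S2 F G0 x hG0
  have hDG : Dat T G0 c χ δ := tD c χ T δ hD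
  have eE : ∀ t, eI G0 c χ t = eI F c χ t := fun t => by
    unfold eI
    rw [tth, tmu]
  have eW : ∀ t, wI G0 c χ t = wI F c χ t := fun t => by
    unfold wI
    rw [tY, tmu]
  have eA : ∀ t, arI G0 c χ t = arI F c χ t := fun t => by
    unfold arI
    rw [tmu]
  obtain ⟨C4, ts4, hC4, hts4, h4⟩ := hMVW N S2 T G0 c χ δ hDG
    (fun t ht => by rw [eA, eW]; exact hA t ht) (max C1 C2) α ts1 (lt_max_of_lt_left hC1) hα hts1
    (fun t ht => by
      obtain ⟨a1, a2, a3, a4⟩ := h1 t ht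
      have hp : 0 ≤ (T - t) ^ α := Real.rpow_nonneg (by linarith [ht.2]) _
      have hp2 : 0 ≤ (T - t) ^ (α + 1 / 2) := Real.rpow_nonneg (by linarith [ht.2]) _
      have hm1 : C1 * (T - t) ^ α ≤ max C1 C2 * (T - t) ^ α :=
        mul_le_mul_of_nonneg_right (le_max_left _ _) hp
      have hm2 : C2 * (T - t) ^ (α + 1 / 2) ≤ max C1 C2 * (T - t) ^ (α + 1 / 2) :=
        mul_le_mul_of_nonneg_right (le_max_right _ _) hp2
      refine ⟨by rw [eE]; exact a1.trans hm1, fun q => ⟨?_, ?_, ?_⟩⟩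
      · rw [tth]
        exact (a4 q).1.trans hm1
      · rw [tY]
        exact (a4 q).2.trans hm1
      · rw [hG0]
        exact (h2 t ht q).trans (by linarith))
  have hts40 : ts4 ∈ Ioo 0 T := ⟨hts1.1.trans_le hts4.1, hts4.2⟩
  obtain ⟨G, C5, hGc, hC5, h5⟩ := hLMK N S2 T G0 hDG.su.mcf C4 α ts4 hC4 hα hts40 h4
  -- the rescaled surfaces are close to a round sphere
  have hkey : ∀ η : ℝ, 0 < η → ∃ (Φ : S2 → EE N) (L : EE 3 →ₗᵢ[ℝ] EE N),
      (∀ q, ‖Φ q - G q‖ ≤ η) ∧ (∀ q, ∃ y : EE 3, ‖y‖ = 1 ∧ ‖Φ q - L y‖ ≤ η) ∧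
      ∀ y : EE 3, ‖y‖ = 1 → ∃ q, ‖Φ q - L y‖ ≤ η := by
    intro η hη
    obtain ⟨ε, hε, hR⟩ := hRND η hη
    obtain ⟨d1, hd1, hd1'⟩ := small_rpow hα (δ := min ε (ε ^ 2) / (4 * (C1 + C4)))
      (by positivity)
    obtain ⟨d2, hd2, hd2'⟩ := small_rpow (half_pos hα) (δ := η / C5) (by positivity)
    obtain ⟨t, htd, htT⟩ : ∃ t, t ∈ Ico ts4 T ∧ T - t ≤ min d1 d2 := by
      refine ⟨max ts4 (T - min d1 d2), ⟨le_max_left _ _, max_lt hts4.2 ?_⟩, ?_⟩
      · have : 0 < min d1 d2 := lt_min hd1 hd2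
        linarith
      · have := le_max_right ts4 (T - min d1 d2)
        linarith
    have ht1 : t ∈ Ico ts1 T := ⟨hts4.1.trans htd.1, htd.2⟩
    have ht0 : t ∈ Ioo 0 T := ⟨hts1.1.trans_le ht1.1, ht1.2⟩
    set τ : ℝ := T - t with hτ
    have hτ0 : 0 < τ := by
      rw [hτ]
      linarith [htd.2]
    have hp1 : τ ^ α ≤ min ε (ε ^ 2) / (4 * (C1 + C4)) :=
      hd1' τ hτ0 (htT.trans (min_le_left _ _))
    have hp2 : τ ^ (α / 2) ≤ η / C5 := hd2' τ hτ0 (htT.trans (min_le_right _ _))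
    rw [le_div_iff₀ (by positivity)] at hp1
    rw [le_div_iff₀ hC5] at hp2
    have hpn : 0 ≤ τ ^ α := Real.rpow_nonneg hτ0.le _
    have q1 : 4 * (C1 * τ ^ α) ≤ min ε (ε ^ 2) := by nlinarith
    have q2 : 4 * (C4 * τ ^ α) ≤ min ε (ε ^ 2) := by nlinarith
    have q3 : min ε (ε ^ 2) ≤ ε := min_le_left _ _
    have q4 : min ε (ε ^ 2) ≤ ε ^ 2 := min_le_right _ _
    have hs0 : 0 < Real.sqrt τ := Real.sqrt_pos.2 hτ0
    have hss : Real.sqrt τ ^ 2 = τ := Real.sq_sqrt hτ0.le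
    have hc0 : 0 < 1 / (2 * Real.sqrt τ) := by positivity
    have hc2 : (1 / (2 * Real.sqrt τ)) ^ 2 = 1 / (4 * τ) := by
      rw [div_pow, mul_pow, hss]
      norm_num
    have hc1 : 1 / (1 / (2 * Real.sqrt τ)) = 2 * Real.sqrt τ := by
      rw [one_div_one_div]
    obtain ⟨Φ, hΦ⟩ : ∃ Φ : S2 → ℝ → EE N, Φ = fun q _ => (1 / (2 * Real.sqrt τ)) • G0 q t :=
      ⟨_, rfl⟩
    obtain ⟨s1, s2, s3⟩ := frozen hSCL hDG ht0 hc0 Φ hΦ
    obtain ⟨a1, a2, a3, a4⟩ := h1 t ht1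
    have eH : ∀ q, HH (n := 2) Φ q 0 = (2 * Real.sqrt τ) • HH (n := 2) G0 q t := fun q => by
      rw [(s2 q).1, hc1]
    have eYY : ∀ q, ‖HH (n := 2) Φ q 0‖ ^ 2 = 4 * (τ * YF F q t) := fun q => by
      rw [eH, norm_smul, Real.norm_eq_abs, abs_of_pos (by positivity), mul_pow, mul_pow, hss,
        ← tY]
      unfold YF
      ring
    have eTh : ∀ q, thF 2 Φ q 0 = 4 * (τ * thF 2 F q t) := fun q => by
      rw [← tth]
      unfold thF
      rw [(s2 q).2, (s2 q).1, hc1, norm_smul, Real.norm_eq_abs, abs_of_pos (by positivity),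
        mul_pow, mul_pow, hss, hc2]
      field_simp
      ring
    obtain ⟨L, L1, L2⟩ := hR N S2 univ Φ c χ s1 0 (mem_univ 0)
      (fun q => by
        have e1 : HH (n := 2) Φ q 0 + (2 : ℝ) • Φ q 0 =
            (2 * Real.sqrt τ) • (HH (n := 2) G0 q t + (1 / (2 * τ)) • G0 q t) := by
          rw [eH, hΦ, smul_add, smul_smul, smul_smul]
          congr 2
          have : τ = Real.sqrt τ ^ 2 := hss.symm
          rw [mul_one_div, mul_one_div, div_eq_div_iff (by positivity) (by positivity)]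
          nlinarith
        have e2 : ‖HH (n := 2) Φ q 0 + (2 : ℝ) • Φ q 0‖ ^ 2 = 4 * (τ * uF T G0 q t) := by
          rw [e1, norm_smul, Real.norm_eq_abs, abs_of_pos (by positivity), mul_pow, mul_pow, hss]
          unfold uF
          ring
        have e3 : ‖HH (n := 2) Φ q 0 + (2 : ℝ) • Φ q 0‖ ^ 2 ≤ ε ^ 2 := by
          rw [e2]
          have := h4 t htd q
          linarith
        exact le_of_sq_le_sq e3 hε.le)
      (fun q => by
        rw [eTh]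
        have := (a4 q).1
        linarith)
      (fun q => by
        have e1 : YF Φ q 0 - 4 = 4 * (τ * YF F q t - 1) := by
          unfold YF
          rw [eYY]
          unfold YF
          ring
        rw [e1, abs_mul, abs_of_pos (by norm_num : (0 : ℝ) < 4)]
        have := (a4 q).2
        linarith)
      (by
        rw [s3, hc2, eA]
        have b1 := (hA t ht0).2
        have b2 := hD.gb t ht0
        have b3 : arI F c χ t / (4 * τ) ≤ wI F c χ t / 4 := by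
          rw [div_le_div_iff₀ (by positivity) (by norm_num)]
          nlinarith
        rw [one_div, inv_mul_eq_div]
        linarith)
    refine ⟨fun q => Φ q 0, L, fun q => ?_, L1, L2⟩
    rw [hΦ]
    refine (h5 t htd q).trans ?_
    rw [mul_comm]
    exact hp2
  obtain ⟨L, hL⟩ := hLMS N S2 G hGc hkey
  -- final choice of the time
  obtain ⟨d, hd, hd'⟩ := small_rpow hα (δ := 1 / C1) (by positivity)
  refine ⟨x, G, L, C5 + C1, α / 2, max ts4 (T - min d 1), hGc, hL, by positivity, half_pos hα,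
    ⟨hts40.1.trans_le (le_max_left _ _), max_lt hts4.2 ?_⟩, ?_⟩
  · have : 0 < min d 1 := lt_min hd one_pos
    linarith
  · intro t ht
    have ht4 : t ∈ Ico ts4 T := ⟨(le_max_left _ _).trans ht.1, ht.2⟩
    have ht1 : t ∈ Ico ts1 T := ⟨hts4.1.trans ht4.1, ht4.2⟩
    have ht0 : t ∈ Ioo 0 T := ⟨hts1.1.trans_le ht1.1, ht1.2⟩
    have hτ0 : 0 < T - t := by linarith [ht.2]
    have hτd : T - t ≤ min d 1 := by
      have := (le_max_right ts4 (T - min d 1)).trans ht.1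
      linarith
    have hτ1 : T - t ≤ 1 := hτd.trans (min_le_right _ _)
    obtain ⟨a1, a2, a3, a4⟩ := h1 t ht1
    have hpn : 0 ≤ (T - t) ^ (α / 2) := Real.rpow_nonneg hτ0.le _
    have hpp : (T - t) ^ α ≤ (T - t) ^ (α / 2) :=
      Real.rpow_le_rpow_of_exponent_ge hτ0 hτ1 (by linarith)
    have hC1m : C1 * (T - t) ^ α ≤ (C5 + C1) * (T - t) ^ (α / 2) := by
      have c1 := mul_le_mul_of_nonneg_left hpp hC1.le
      have c2 := mul_nonneg hC5.le hpn
      nlinarith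
    have hC5m : C5 * (T - t) ^ (α / 2) ≤ (C5 + C1) * (T - t) ^ (α / 2) := by
      have c2 := mul_nonneg hC1.le hpn
      nlinarith
    refine ⟨?_, fun q => ⟨?_, (a4 q).1.trans hC1m, (a4 q).2.trans hC1m⟩⟩
    · apply hINJ N S2 (Ioo 0 T) F c χ hD.su.toJ t ht0
      have b2 := hD.gb t ht0
      have b3 : C1 * (T - t) ^ α ≤ 1 := by
        have := hd' (T - t) hτ0 (hτd.trans (min_le_left _ _))
        rw [le_div_iff₀ hC1] at this
        linarith
      have b4 := Real.pi_gt_three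
      linarith
    · have := h5 t ht4 q
      rw [hG0] at this
      exact this.trans hC5m

end Helper10.MS
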