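import Pool.Agent.Helper35.MS.StJ
import Pool.Agent.Helper42.PI2.M_LT

/-! Project MS, module LTJ: integrability in the charts. -/

set_option autoImplicit false

namespace Helper10.MS

open Helper35.MS Helper35.PI Helper35.PI2 Helper32.CL Pool.Agent.Helper35.CL
open scoped ContDiff Manifold Topology ENNReal BigOperators
open MeasureTheory Set Filter

theorem cont_sliceJ {n : ℕ} (J : Set ℝ) (T : Set (EE n)) (a : EE n → ℝ → ℝ)
    (hS : ContinuousOn (fun z : EE n × ℝ => a z.1 z.2) (T ×ˢ J)) (t : ℝ) (ht : t ∈ J) :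
    ContinuousOn (fun y => a y t) T := by
  have h3 : ContinuousOn (fun y : EE n => (y, t)) T := by fun_prop
  exact hS.comp h3 fun y hy => ⟨hy, ht⟩

theorem hLTJ (hSGJ : StSGJ) : StLTJ := by
  intro n N M _ _ _ J F hF t ht c χ hPU i
  have hχ : Continuous (χ i) := (hPU.smooth i).continuous
  have hc := hPU.cpt i
  have hs := hPU.sub i
  have h1 := (hSGJ n N M J F hF (c i)).2
  have hsg : ContinuousOn (fun y => sgm (loc (n := n) F (c i) t) y)
      (chartAt (EE n) (c i)).target :=
    cont_sliceJ J _ (fun y r => sgm (loc (n := n) F (c i) r) y) h1 t ht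
  refine ⟨fun g hg => ?_, fun E hE => ?_⟩
  · exact Helper42.PI2.integrableOn_chart (chartAt (EE n) (c i)) (χ i) hχ hc hs
      (fun y => g ((chartAt (EE n) (c i)).symm y) * sgm (loc (n := n) F (c i) t) y)
      ((hg.comp_continuousOn (chartAt (EE n) (c i)).continuousOn_symm).mul hsg)
  · exact Helper42.PI2.integrableOn_chart_indicator (chartAt (EE n) (c i)) (χ i) hχ hc hs
      (fun y => sgm (loc (n := n) F (c i) t) y) hsg E hE

end Helper10.MS
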